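import Pool.Agent.helper86.NF.SpecC

set_option autoImplicit false

open Complex MeasureTheory

namespace Pool.Agent.NF

open Pool.Agent.helper84.DM Pool.Agent.helper78.ED Pool.Agent.DH Pool.Agent.ZD

lemma NAA_1 {s : ℝ} (h : s < 2 / 3) : AA s = 3 / (2 - s) := by
  rw [AA, if_pos h]

lemma NAA_2 {s : ℝ} (h : 2 / 3 ≤ s) (h' : s < 5 / 7) : AA s = 9 / 4 := by
  rw [AA, if_neg (not_lt.mpr h), if_pos h']

lemma NAA_3 {s : ℝ} (h : 5 / 7 ≤ s) (h' : s ≤ 5 / 6) : AA s = 7 / (1 + 3 * s) := by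
  rw [AA, if_neg (not_lt.mpr (by linarith)), if_neg (not_lt.mpr h), if_pos h']

lemma NAA_4 {s : ℝ} (h : 5 / 6 < s) : AA s = 2 := by
  rw [AA, if_neg (not_lt.mpr (by linarith)), if_neg (not_lt.mpr (by linarith)),
    if_neg (not_le.mpr h)]

lemma NAA_two {s : ℝ} (h : 1 / 2 ≤ s) : 2 ≤ AA s := by
  rcases lt_or_ge s (2 / 3) with h1 | h1
  · rw [NAA_1 h1, le_div_iff₀ (by linarith)]
    linarith
  rcases lt_or_ge s (5 / 7) with h2 | h2
  · rw [NAA_2 h1 h2]
    norm_num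
  rcases le_or_gt s (5 / 6) with h3 | h3
  · rw [NAA_3 h2 h3, le_div_iff₀ (by linarith)]
    linarith
  · rw [NAA_4 h3]

lemma NAA_le {s : ℝ} (h : 1 / 2 ≤ s) : AA s * (1 - s) ≤ 1 := by
  rcases lt_or_ge s (2 / 3) with h1 | h1
  · rw [NAA_1 h1, div_mul_eq_mul_div, div_le_one (by linarith)]
    linarith
  rcases lt_or_ge s (5 / 7) with h2 | h2
  · rw [NAA_2 h1 h2]
    linarith
  rcases le_or_gt s (5 / 6) with h3 | h3
  · rw [NAA_3 h2 h3, div_mul_eq_mul_div, div_le_one (by linarith)]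
    linarith
  · rw [NAA_4 h3]
    linarith

/-- **NAA**: values of the exponent function. -/
theorem NAA : NAA_stmt := by
  refine ⟨?_, ?_, ?_, ?_, ?_, ?_, ?_⟩
  · intro s _ h
    rw [wA, NAA_1 h, div_mul_eq_mul_div]
  · intro s h h'
    rw [wA, NAA_2 h h']
  · intro s h h'
    rw [wA, NAA_3 h h', div_mul_eq_mul_div]
  · intro s h h'
    rw [wA]
    exact mul_le_mul_of_nonneg_right (NAA_two h) (by linarith)
  · intro s h h'
    refine ⟨?_, ?_⟩
    · rw [wA]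
      have := NAA_two h
      exact mul_nonneg (by linarith) (by linarith)
    · rw [wA]
      exact NAA_le h
  · intro s h h'
    rcases lt_or_eq_of_le h' with h1 | h1
    · rw [wA, NAA_1 h1, div_mul_eq_mul_div]
      have h2 : (2 : ℝ) * (1 - s) ≤ 3 * (1 - s) / (2 - s) := by
        rw [le_div_iff₀ (by linarith)]
        nlinarith
      linarith
    · rw [h1, wA, NAA_2 le_rfl (by norm_num)]
      norm_num
  · intro s h h'
    rw [wA, wA, NAA_3 (by norm_num : (5 / 7 : ℝ) ≤ 3 / 4) (by norm_num), NAA_3 (by linarith) h']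
    have h1 : (7 / (1 + 3 * (3 / 4)) * (1 - 3 / 4) : ℝ) = 7 / 13 := by norm_num
    rw [h1, div_mul_eq_mul_div]
    have h2 : 7 / 13 - 3 * (s - 3 / 4) ≤ 7 * (1 - s) / (1 + 3 * s) := by
      rw [le_div_iff₀ (by linarith)]
      nlinarith [mul_nonneg (sub_nonneg.mpr h) (sub_nonneg.mpr h)]
    linarith

end Pool.Agent.NF
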