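import Pool.Agent.helper86.NF.SpecC

set_option autoImplicit false

open Complex MeasureTheory

namespace Pool.Agent.NF

open Pool.Agent.helper84.DM Pool.Agent.helper78.ED Pool.Agent.DH Pool.Agent.ZD

/-- the case `M = T ^ b`. -/
lemma NLW_pow {T b σ w : ℝ} (hT : 1 ≤ T) (h1 : b * (2 - 2 * σ) ≤ w)
    (h2 : 1 / 2 + b * (3 - 4 * σ) ≤ w) (h3 : 6 / 7 + b * (18 / 7 - 4 * σ) ≤ w)
    (h4 : 1 + b * (2 - 4 * σ) ≤ w) :
    (T ^ b) ^ (2 : ℕ) * (T ^ b) ^ (-(2 * σ)) + (T ^ (1 / 2 : ℝ) * (T ^ b) ^ (3 : ℕ) +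
      T ^ (6 / 7 : ℝ) * (T ^ b) ^ (18 / 7 : ℝ) + T * (T ^ b) ^ (2 : ℕ)) * (T ^ b) ^ (-(4 * σ)) ≤
      4 * T ^ w := by
  have hT0 : 0 < T := by linarith
  have e1 : (T ^ b) ^ (2 : ℕ) * (T ^ b) ^ (-(2 * σ)) = T ^ (b * (2 - 2 * σ)) := by
    rw [← Real.rpow_natCast (T ^ b) 2, ← Real.rpow_mul hT0.le, ← Real.rpow_mul hT0.le,
      ← Real.rpow_add hT0]
    congr 1
    push_cast
    ring
  have e2 : T ^ (1 / 2 : ℝ) * (T ^ b) ^ (3 : ℕ) * (T ^ b) ^ (-(4 * σ)) =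
      T ^ (1 / 2 + b * (3 - 4 * σ)) := by
    rw [← Real.rpow_natCast (T ^ b) 3, ← Real.rpow_mul hT0.le, ← Real.rpow_mul hT0.le,
      ← Real.rpow_add hT0, ← Real.rpow_add hT0]
    congr 1
    push_cast
    ring
  have e3 : T ^ (6 / 7 : ℝ) * (T ^ b) ^ (18 / 7 : ℝ) * (T ^ b) ^ (-(4 * σ)) =
      T ^ (6 / 7 + b * (18 / 7 - 4 * σ)) := by
    rw [← Real.rpow_mul hT0.le, ← Real.rpow_mul hT0.le,
      ← Real.rpow_add hT0, ← Real.rpow_add hT0]
    congr 1
    ring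
  have e4 : T * (T ^ b) ^ (2 : ℕ) * (T ^ b) ^ (-(4 * σ)) = T ^ (1 + b * (2 - 4 * σ)) := by
    rw [← Real.rpow_natCast (T ^ b) 2, ← Real.rpow_mul hT0.le, ← Real.rpow_mul hT0.le]
    nth_rewrite 1 [← Real.rpow_one T]
    rw [← Real.rpow_add hT0, ← Real.rpow_add hT0]
    congr 1
    push_cast
    ring
  have f1 := Real.rpow_le_rpow_of_exponent_le hT h1
  have f2 := Real.rpow_le_rpow_of_exponent_le hT h2
  have f3 := Real.rpow_le_rpow_of_exponent_le hT h3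
  have f4 := Real.rpow_le_rpow_of_exponent_le hT h4
  rw [add_mul, add_mul, e1, e2, e3, e4]
  linarith

/-- **NLW**: the exponents of lw. -/
theorem NLW : NLW_stmt := by
  intro T M σ hT hs hs' hM hb
  have hT0 : 0 < T := by linarith
  have hM1 : 1 ≤ M := le_trans (Real.one_le_rpow hT (by norm_num)) hM
  have hM0 : 0 < M := by linarith
  rcases eq_or_lt_of_le hT with h1 | h1
  · subst h1
    rw [Real.one_rpow] at hb ⊢
    have hM2 : M = 1 := by
      by_contra hne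
      have hlt : 1 < M := lt_of_le_of_ne hM1 (Ne.symm hne)
      have := Real.one_lt_rpow hlt (by linarith : 0 < 2 * σ - 1)
      linarith
    rw [hM2]
    simp only [one_pow, Real.one_rpow]
    norm_num
  · set b := Real.logb T M with hbdef
    have hTb : T ^ b = M := Real.rpow_logb hT0 (by linarith) hM0
    have hD : 0 < 1 + 3 * σ := by linarith
    have hb1 : 39 / 50 ≤ b := by
      have : T ^ (39 / 50 : ℝ) ≤ T ^ b := by rw [hTb]; exact hM
      exact (Real.rpow_le_rpow_left_iff h1).mp this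
    have hb2 : b * (2 * σ - 1) ≤ 1 - 7 * (1 - σ) / (1 + 3 * σ) := by
      have : T ^ (b * (2 * σ - 1)) ≤ T ^ (1 - 7 * (1 - σ) / (1 + 3 * σ)) := by
        rw [Real.rpow_mul hT0.le, hTb]; exact hb
      exact (Real.rpow_le_rpow_left_iff h1).mp this
    have hb3 : b * (2 * σ - 1) * (1 + 3 * σ) ≤ 10 * σ - 6 := by
      have h2 := mul_le_mul_of_nonneg_right hb2 hD.le
      have h3 : (1 - 7 * (1 - σ) / (1 + 3 * σ)) * (1 + 3 * σ) = 10 * σ - 6 := by
        field_simp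
        ring
      linarith
    have hble : b ≤ 1 := by
      by_contra hgt
      push Not at hgt
      have h2 : 0 < (2 * σ - 1) * (1 + 3 * σ) := mul_pos (by linarith) hD
      have h3 : (2 * σ - 1) * (1 + 3 * σ) < b * ((2 * σ - 1) * (1 + 3 * σ)) := by
        nlinarith
      nlinarith
    rw [← hTb]
    refine NLW_pow hT ?_ ?_ ?_ ?_
    · rw [le_div_iff₀ hD]
      have h2 : b * (2 - 2 * σ) ≤ 2 - 2 * σ := by nlinarith
      have h3 := mul_le_mul_of_nonneg_right h2 hD.le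
      nlinarith
    · rw [le_div_iff₀ hD]
      have h2 : 0 < 2 * σ - 1 := by linarith
      have h3 : 0 ≤ 3 - 4 * σ := by linarith
      have h4 := mul_le_mul_of_nonneg_right hb3 h3
      have h5 : (1 / 2 + b * (3 - 4 * σ)) * (1 + 3 * σ) * (2 * σ - 1) ≤
          7 * (1 - σ) * (2 * σ - 1) := by
        nlinarith [sq_nonneg (σ - 65 / 92)]
      exact le_of_mul_le_mul_right h5 h2
    · rw [le_div_iff₀ hD]
      have h2 : b * (18 / 7 - 4 * σ) ≤ 39 / 50 * (18 / 7 - 4 * σ) := by nlinarith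
      have h3 : (6 / 7 + b * (18 / 7 - 4 * σ)) * (1 + 3 * σ) ≤
          (6 / 7 + 39 / 50 * (18 / 7 - 4 * σ)) * (1 + 3 * σ) :=
        mul_le_mul_of_nonneg_right (by linarith) hD.le
      nlinarith
    · rw [le_div_iff₀ hD]
      have h2 : b * (2 - 4 * σ) ≤ 39 / 50 * (2 - 4 * σ) := by nlinarith
      have h3 : (1 + b * (2 - 4 * σ)) * (1 + 3 * σ) ≤
          (1 + 39 / 50 * (2 - 4 * σ)) * (1 + 3 * σ) :=
        mul_le_mul_of_nonneg_right (by linarith) hD.le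
      nlinarith

end Pool.Agent.NF
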